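import Pool.Agent.H10.BL.Stmts

/-!
# BL: LAY, layers of an integer
-/

set_option autoImplicit false

namespace Pool.BL

open Finset Pool.Agent.H98.ABCR Pool.SHA

namespace LAY65

theorem v_pos {n p : ℕ} (hp : p ∈ n.primeFactors) : 1 ≤ n.factorization p := by
  have h5 : n.factorization p ≠ 0 := by
    rw [← Finsupp.mem_support_iff, Nat.support_factorization]
    exact hp
  omega

theorem sum_layers (n : ℕ) (K : Finset ℕ) (g : ℕ → ℕ) :
    ∏ e ∈ K, ∏ p ∈ n.primeFactors.filter (fun p => n.factorization p = e), g p =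
    ∏ p ∈ n.primeFactors.filter (fun p => n.factorization p ∈ K), g p := by
  rw [← Finset.prod_fiberwise_of_maps_to (s := n.primeFactors.filter
    (fun p => n.factorization p ∈ K)) (t := K) (g := fun p => n.factorization p)]
  · refine Finset.prod_congr rfl fun e he => Finset.prod_congr ?_ fun _ _ => rfl
    ext p
    simp only [Finset.mem_filter]
    constructor
    · rintro ⟨h1, h2⟩
      exact ⟨⟨h1, h2 ▸ he⟩, h2⟩
    · rintro ⟨⟨h1, _⟩, h2⟩
      exact ⟨h1, h2⟩
  · intro p hp
    exact (Finset.mem_filter.1 hp).2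

theorem split (n J : ℕ) (K : Finset ℕ) (hK : K ⊆ Icc 1 J) (g : ℕ → ℕ) :
    (∏ p ∈ n.primeFactors.filter (fun p => J < n.factorization p), g p) *
      (∏ p ∈ n.primeFactors.filter (fun p => n.factorization p ∈ K), g p) =
    ∏ p ∈ n.primeFactors.filter (fun p => J < n.factorization p ∨ n.factorization p ∈ K), g p := by
  rw [Finset.filter_or, Finset.prod_union]
  rw [Finset.disjoint_filter]
  intro p _ h1 h2
  have := (Finset.mem_Icc.1 (hK h2)).2
  omega

theorem lay_pow (n e : ℕ) : lay n e ^ e =
    ∏ p ∈ n.primeFactors.filter (fun p => n.factorization p = e), p ^ n.factorization p := by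
  unfold lay
  rw [← Finset.prod_pow]
  exact Finset.prod_congr rfl fun p hp => by rw [(Finset.mem_filter.1 hp).2]

theorem kp_eq (n J : ℕ) (K : Finset ℕ) (hK : K ⊆ Icc 1 J) : kp J K n =
    ∏ p ∈ n.primeFactors.filter (fun p => J < n.factorization p ∨ n.factorization p ∈ K),
      p ^ n.factorization p := by
  unfold kp tp
  rw [← split n J K hK, ← sum_layers]
  congr 1
  exact Finset.prod_congr rfl fun e _ => lay_pow n e

/-- the radical of a product of full prime powers -/
theorem rad_prod (n : ℕ) (T : Finset ℕ) (hT : T ⊆ n.primeFactors) :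
    rad (∏ p ∈ T, p ^ n.factorization p) = ∏ p ∈ T, p := by
  have h : (∏ p ∈ T, p ^ n.factorization p).primeFactors = T := by
    ext q
    have hne : ∏ p ∈ T, p ^ n.factorization p ≠ 0 :=
      Finset.prod_ne_zero_iff.2 fun p hp =>
        pow_ne_zero _ (Nat.prime_of_mem_primeFactors (hT hp)).ne_zero
    rw [Nat.mem_primeFactors]
    constructor
    · rintro ⟨hq, hd, -⟩
      obtain ⟨r, hr, hqr⟩ := (hq.prime.dvd_finsetProd_iff _).1 hd
      have h1 : q ∣ r := hq.dvd_of_dvd_pow hqr
      have h2 : q = r :=
        (Nat.prime_dvd_prime_iff_eq hq (Nat.prime_of_mem_primeFactors (hT hr))).1 h1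
      rw [h2]
      exact hr
    · intro hq
      have hp := Nat.prime_of_mem_primeFactors (hT hq)
      refine ⟨hp, ?_, hne⟩
      exact (dvd_pow_self q (by have := v_pos (hT hq); omega)).trans
        (Finset.dvd_prod_of_mem (fun p => p ^ n.factorization p) hq)
  unfold rad
  rw [h]

theorem rad_kp (n J : ℕ) (K : Finset ℕ) (hK : K ⊆ Icc 1 J) :
    rad (kp J K n) = rad (tp J n) * ∏ e ∈ K, lay n e := by
  rw [kp_eq n J K hK, rad_prod n _ (Finset.filter_subset _ _)]
  have h1 : rad (tp J n) = ∏ p ∈ n.primeFactors.filter (fun p => J < n.factorization p), p := by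
    unfold tp
    rw [rad_prod n _ (Finset.filter_subset _ _)]
  rw [h1]
  unfold lay
  rw [sum_layers n K (fun p => p), split n J K hK (fun p => p)]

theorem prod_self {n : ℕ} (hn : 0 < n) : ∏ p ∈ n.primeFactors, p ^ n.factorization p = n := by
  have := Nat.prod_factorization_pow_eq_self hn.ne'
  rw [Finsupp.prod] at this
  exact this

theorem sub_dvd {n : ℕ} (hn : 0 < n) (T : Finset ℕ) (hT : T ⊆ n.primeFactors) :
    ∏ p ∈ T, p ^ n.factorization p ∣ n := by
  have h := Finset.prod_dvd_prod_of_subset T n.primeFactors (fun p => p ^ n.factorization p) hT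
  rwa [prod_self hn] at h

theorem kp_full {n : ℕ} (hn : 0 < n) (J : ℕ) : kp J (Icc 1 J) n = n := by
  rw [kp_eq n J _ subset_rfl]
  have h : n.primeFactors.filter
      (fun p => J < n.factorization p ∨ n.factorization p ∈ Icc 1 J) = n.primeFactors := by
    refine Finset.filter_true_of_mem fun p hp => ?_
    have := v_pos hp
    rw [Finset.mem_Icc]
    omega
  rw [h, prod_self hn]

theorem squarefree_rad (n : ℕ) : Squarefree (rad n) := by
  unfold rad
  refine Finset.squarefree_prod_of_pairwise_isCoprime ?_ ?_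
  · intro p hp q hq hpq
    change IsRelPrime p q
    rw [← Nat.coprime_iff_isRelPrime]
    exact (Nat.coprime_primes (Nat.prime_of_mem_primeFactors hp)
      (Nat.prime_of_mem_primeFactors hq)).2 hpq
  · intro p hp
    exact (Nat.prime_of_mem_primeFactors hp).squarefree

end LAY65

open LAY65

theorem lay_thm : S_LAY := by
  intro J n hn
  refine ⟨kp_full hn J, ?_, ?_, ?_, ?_⟩
  · have h1 : rad (tp J n) = ∏ p ∈ n.primeFactors.filter (fun p => J < n.factorization p), p := by
      unfold tp
      rw [rad_prod n _ (Finset.filter_subset _ _)]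
    have h2 : tp J n ≤ n := Nat.le_of_dvd hn (sub_dvd hn _ (Finset.filter_subset _ _))
    refine le_trans ?_ h2
    rw [h1, ← Finset.prod_pow]
    unfold tp
    refine Finset.prod_le_prod' fun p hp => ?_
    rw [Finset.mem_filter] at hp
    exact Nat.pow_le_pow_right (Nat.prime_of_mem_primeFactors hp.1).pos hp.2
  · have h := rad_kp n J (Icc 1 J) subset_rfl
    rwa [kp_full hn J] at h
  · intro K hK
    refine ⟨?_, rad_kp n J K hK⟩
    rw [kp_eq n J K hK]
    exact sub_dvd hn _ (Finset.filter_subset _ _)
  · intro e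
    refine ⟨?_, ?_, fun _ => ?_, fun he => ?_⟩
    · exact Finset.prod_pos fun _ hp =>
        (Nat.prime_of_mem_primeFactors (Finset.mem_filter.1 hp).1).pos
    · refine (squarefree_rad n).squarefree_of_dvd ?_
      exact Finset.prod_dvd_prod_of_subset _ _ _ (Finset.filter_subset _ _)
    · rw [lay_pow]
      exact sub_dvd hn _ (Finset.filter_subset _ _)
    · have h := kp_full hn J
      unfold kp at h ⊢
      rw [mul_assoc, Finset.prod_erase_mul _ _ he]
      exact h

end Pool.BL
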